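import Pool.Agent.helper55.RI.Spec

/-!
# Project ri, module B2: the isomorphism of Cantor, Bernstein and Myhill in polynomial time
-/

set_option autoImplicit false

namespace Pool.Agent.RI

open Pool.Agent.helper62 Prog Function Pool.Agent.helper81.PL

theorem B2_len1 (e1 m1 e2 m2 : W → W) (h1 : ∀ x, x.length < (e1 x).length)
    (h2 : ∀ x, x.length < (e2 x).length) (s : Bool × W) :
    (bk e1 m1 e2 m2 s).2.length ≤ s.2.length := by
  obtain ⟨b, w⟩ := s
  unfold bk
  cases b
  · by_cases h : e1 (m1 w) = w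
    · have := h1 (m1 w)
      rw [h] at this
      simp [h]
      exact this.le
    · simp [h]
  · by_cases h : e2 (m2 w) = w
    · have := h2 (m2 w)
      rw [h] at this
      simp [h]
      exact this.le
    · simp [h]

theorem B2_len (e1 m1 e2 m2 : W → W) (h1 : ∀ x, x.length < (e1 x).length)
    (h2 : ∀ x, x.length < (e2 x).length) (i : ℕ) (s : Bool × W) :
    ((bk e1 m1 e2 m2)^[i] s).2.length ≤ s.2.length := by
  induction i generalizing s with
  | zero => exact le_rfl
  | succ i ih =>
    rw [iterate_succ_apply]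
    exact (ih _).trans (B2_len1 e1 m1 e2 m2 h1 h2 s)

theorem B2_bk (e1 m1 e2 m2 : W → W) (p1 : PT e1) (q1 : PT m1) (p2 : PT e2) (q2 : PT m2) :
    PT (bk e1 m1 e2 m2) := by
  have : PT (fun s : Bool × W => bif s.1 then (bif eqb (e2 (m2 s.2)) s.2 then (false, m2 s.2) else s)
      else (bif eqb (e1 (m1 s.2)) s.2 then (true, m1 s.2) else s)) := by fun_prop
  exact this

theorem B2_side (e1 m1 e2 m2 : W → W) (p1 : PT e1) (q1 : PT m1) (p2 : PT e2) (q2 : PT m2)
    (h1 : ∀ x, x.length < (e1 x).length) (h2 : ∀ x, x.length < (e2 x).length) :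
    PT (side e1 m1 e2 m2) := by
  have hb := B2_bk e1 m1 e2 m2 p1 q1 p2 q2
  have hl : PT (fun s : Bool × W => s.2.length) := by fun_prop
  have hit : PT (fun s : Bool × W => (bk e1 m1 e2 m2)^[s.2.length + 1] s) := by
    refine pt_iter (n := fun s : Bool × W => s.2.length + 1) (g := fun s : Bool × W => s)
      (s := fun _ => bk e1 m1 e2 m2) (c := fun s => 4 * s.2.length + 6) (by fun_prop) PT.id
      (PT.comp hb (by fun_prop)) (((PB.const 4).mul hl.nat_pb).add (PB.const 6)) ?_
    intro s i _
    have hi := B2_len e1 m1 e2 m2 h1 h2 i s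
    generalize (bk e1 m1 e2 m2)^[i] s = u at hi ⊢
    obtain ⟨b, w⟩ := u
    rw [sz_prod]
    have e1 := sz_bool_le b
    have e2 := sz_list_le (l := w) (n := w.length) (m := 3) le_rfl (fun a _ => sz_bool_le a)
    simp only at hi
    omega
  exact PT.comp (g := fun p : Bool × W => p.1)
    (f := fun s : Bool × W => (bk e1 m1 e2 m2)^[s.2.length + 1] s) pt_fst hit

theorem B2 : B2_stmt := by
  intro e1 m1 e2 m2 p1 q1 p2 q2 h1 h2
  have hs := B2_side e1 m1 e2 m2 p1 q1 p2 q2 h1 h2
  constructor
  · have : PT (fun x : W => bif side e1 m1 e2 m2 (true, x) then e1 x else m2 x) := by fun_prop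
    exact this
  · have : PT (fun y : W => bif side e1 m1 e2 m2 (false, y) then m1 y else e2 y) := by fun_prop
    exact this

end Pool.Agent.RI
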